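import Mathlib
import Pool.Agent.SGI.Final

set_option autoImplicit false

namespace Pool.Agent.Results.MP_43e291_nt.ReachedPrimes

/-- the map `m ↦ σ(m) - 1` of the question -/
def f (m : ℕ) : ℕ := ArithmeticFunction.sigma 1 m - 1

/-- For every `ε > 0` the number of primes `p ≤ X` at which the orbit of some composite number
ends is at most `C X / (log X) ^ (2 - ε)`. -/
theorem result : ∀ ε : ℝ, 0 < ε → ∃ C : ℝ, 0 < C ∧ ∀ X : ℕ, 3 ≤ X →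
    (({p : ℕ | p.Prime ∧ p ≤ X ∧ ∃ n k : ℕ, 2 ≤ n ∧ ¬ n.Prime ∧ f^[k] n = p}.ncard : ℕ) : ℝ) ≤
      C * X / (Real.log X) ^ (2 - ε) := by
  intro ε hε
  obtain ⟨C, hC, h⟩ := SGI.RP_le ε hε
  refine ⟨C, hC, fun X hX => le_trans ?_ (h X hX)⟩
  have hsub : {p : ℕ | p.Prime ∧ p ≤ X ∧ ∃ n k : ℕ, 2 ≤ n ∧ ¬ n.Prime ∧ f^[k] n = p} ⊆
      ((SGI.RP X : Finset ℕ) : Set ℕ) := by
    rintro p ⟨hp, hpX, n, k, hn, hnp, rfl⟩
    have hf : f = SGI.ff := rfl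
    rw [hf] at hp hpX ⊢
    obtain ⟨n', h1, h2, h3⟩ := SGI.reached k n hn hnp hp
    rw [Finset.mem_coe, SGI.mem_RP]
    exact ⟨⟨hp.one_le, hpX⟩, hp, n', h1, h2, h3⟩
  have h1 := Set.ncard_le_ncard hsub (Finset.finite_toSet _)
  rw [Set.ncard_coe_finset] at h1
  exact_mod_cast h1

end Pool.Agent.Results.MP_43e291_nt.ReachedPrimes
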