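import Mathlib
import Pool.Agent.SGJ.Final

set_option autoImplicit false

namespace Pool.Agent.Results.MP_43e291_nt.ThreeComposites

/-- the map `m ↦ σ(m) - 1` of the question -/
def f (m : ℕ) : ℕ := ArithmeticFunction.sigma 1 m - 1

/-- the greatest prime factor of `m` (and `0` for `m ≤ 1`) -/
def P (m : ℕ) : ℕ := m.primeFactors.sup id

/-- (1) For every `ε > 0` at most `C X (log log X)³ / log X` integers `n ≤ X` with
`P(n) P(f(n)) ≥ n^(1+ε)` have a prime among `n`, `f(n)`, `f(f(n))`.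
(2) For some `ε > 0` the integers `n` with `P(n) P(f(n)) ≥ n^(1+ε)` have positive lower density.
(3) The integers `n` with `n`, `f(n)`, `f(f(n))` all composite have positive lower density. -/
theorem result :
    (∀ ε : ℝ, 0 < ε → ∃ C : ℝ, 0 < C ∧ ∃ X₀ : ℕ, ∀ X : ℕ, X₀ ≤ X →
      (({n : ℕ | 2 ≤ n ∧ n ≤ X ∧ (n : ℝ) ^ (1 + ε) ≤ (P n : ℝ) * P (f n) ∧
        (n.Prime ∨ (f n).Prime ∨ (f (f n)).Prime)}.ncard : ℕ) : ℝ) ≤
        C * X * Real.log (Real.log X) ^ 3 / Real.log X) ∧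
    (∃ ε c : ℝ, 0 < ε ∧ 0 < c ∧ ∃ X₀ : ℕ, ∀ X : ℕ, X₀ ≤ X →
      c * X ≤ (({n : ℕ | 2 ≤ n ∧ n ≤ X ∧
        (n : ℝ) ^ (1 + ε) ≤ (P n : ℝ) * P (f n)}.ncard : ℕ) : ℝ)) ∧
    (∃ c : ℝ, 0 < c ∧ ∃ X₀ : ℕ, ∀ X : ℕ, X₀ ≤ X →
      c * X ≤ (({n : ℕ | 2 ≤ n ∧ n ≤ X ∧ ¬ n.Prime ∧ ¬ (f n).Prime ∧
        ¬ (f (f n)).Prime}.ncard : ℕ) : ℝ)) := by
  classical
  refine ⟨fun ε hε => ?_, ?_, ?_⟩
  · obtain ⟨C, hC, X₀, h⟩ := SGJ.main_n ε hε
    refine ⟨C, hC, X₀, fun X hX => le_trans (le_of_eq ?_) (h X hX)⟩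
    rw [← Set.ncard_coe_finset]
    congr 2
    ext n
    simp only [Set.mem_setOf_eq, Finset.coe_filter, Finset.mem_Icc]
    exact (and_assoc (a := 2 ≤ n)).symm
  · obtain ⟨ε, c, hε, hc, X₀, h⟩ := SGJ.lower_n
    refine ⟨ε, c, hε, hc, X₀, fun X hX => (h X hX).trans (le_of_eq ?_)⟩
    rw [← Set.ncard_coe_finset]
    congr 2
    ext n
    simp only [Set.mem_setOf_eq, Finset.coe_filter, Finset.mem_Icc]
    exact and_assoc
  · obtain ⟨c, hc, X₀, h⟩ := SGJ.composites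
    refine ⟨c, hc, X₀, fun X hX => (h X hX).trans (le_of_eq ?_)⟩
    rw [← Set.ncard_coe_finset]
    congr 2
    ext n
    simp only [Set.mem_setOf_eq, Finset.coe_filter, Finset.mem_Icc]
    exact and_assoc

end Pool.Agent.Results.MP_43e291_nt.ThreeComposites
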