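import Mathlib
import Pool.Agent.SGK.Final

set_option autoImplicit false

namespace Pool.Agent.Results.MP_43e291_nt.TypicalSecondStep

/-- the map `m ↦ σ(m) - 1` of the question -/
def f (m : ℕ) : ℕ := ArithmeticFunction.sigma 1 m - 1

/-- For all `M ≥ 1`, `ε > 0`, `δ > 0` and all large `X` at most `δ X` integers `2 ≤ n ≤ X` fail to
satisfy: `f(n)` is composite, `M ∣ f(n) + 1`, `M ∣ f(f(n)) + 1` and `f(f(n)) ≤ (1 + ε) f(n)`. -/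
theorem result : ∀ M : ℕ, 1 ≤ M → ∀ ε : ℝ, 0 < ε → ∀ δ : ℝ, 0 < δ →
    ∃ X₀ : ℕ, ∀ X : ℕ, X₀ ≤ X →
      (({n : ℕ | 2 ≤ n ∧ n ≤ X ∧ ¬ (¬ (f n).Prime ∧ M ∣ f n + 1 ∧ M ∣ f (f n) + 1 ∧
        ((f (f n) : ℕ) : ℝ) ≤ (1 + ε) * f n)}.ncard : ℕ) : ℝ) ≤ δ * X := by
  classical
  intro M hM ε hε δ hδ
  obtain ⟨X₀, h⟩ := SGK.typical M hM ε hε δ hδ
  refine ⟨X₀, fun X hX => le_trans (le_of_eq ?_) (h X hX)⟩
  rw [← Set.ncard_coe_finset]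
  congr 2
  ext n
  simp only [Set.mem_setOf_eq, Finset.coe_filter, Finset.mem_Icc]
  exact (and_assoc (a := 2 ≤ n)).symm

end Pool.Agent.Results.MP_43e291_nt.TypicalSecondStep
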