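import Mathlib
import Pool.Agent.SGK.Final

set_option autoImplicit false

namespace Pool.Agent.Results.MP_43e291_nt.WholeOrbit

/-- the map `m ↦ σ(m) - 1` of the question -/
def f (m : ℕ) : ℕ := ArithmeticFunction.sigma 1 m - 1

private theorem pair24 : ∀ x y : ZMod 24, x * y = -1 → x + y = 0 := by decide

private theorem sq24 : ∀ x : ZMod 24, x * x ≠ -1 := by decide

private theorem sigma24 (N : ℕ) (h : 24 ∣ N + 1) : 24 ∣ ArithmeticFunction.sigma 1 N := by
  have hN : ((N : ℕ) : ZMod 24) = -1 := by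
    have h1 : (((N + 1 : ℕ)) : ZMod 24) = 0 := (ZMod.natCast_eq_zero_iff _ _).2 h
    push_cast at h1
    exact eq_neg_of_add_eq_zero_left h1
  rw [← ZMod.natCast_eq_zero_iff, ArithmeticFunction.sigma_one_apply]
  push_cast
  have key : ∀ d ∈ N.divisors, ((d : ℕ) : ZMod 24) * ((N / d : ℕ) : ZMod 24) = -1 := by
    intro d hd
    rw [← Nat.cast_mul, Nat.mul_div_cancel' (Nat.dvd_of_mem_divisors hd), hN]
  refine Finset.sum_involution (fun d _ => N / d) ?_ ?_ ?_ ?_
  · intro d hd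
    exact pair24 _ _ (key d hd)
  · intro d hd _ heq
    have h2 := key d hd
    have heq : N / d = d := heq
    rw [heq] at h2
    exact sq24 _ h2
  · intro d hd
    have hd' := Nat.mem_divisors.1 hd
    exact Nat.mem_divisors.2 ⟨Nat.div_dvd_of_dvd hd'.1, hd'.2⟩
  · intro d hd
    have hd' := Nat.mem_divisors.1 hd
    exact Nat.div_div_self hd'.1 hd'.2

private theorem step24 (N : ℕ) (h : 24 ∣ N + 1) : 24 ∣ f N + 1 := by
  have hN : N ≠ 0 := by
    rintro rfl
    omega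
  have h1 : 1 ≤ ArithmeticFunction.sigma 1 N :=
    ArithmeticFunction.sigma_pos 1 N hN
  unfold f
  rw [Nat.sub_add_cancel h1]
  exact sigma24 N h

/-- For almost all `n` the whole orbit after the first step is in the class of `-1` modulo 24. -/
theorem result : ∀ δ : ℝ, 0 < δ → ∃ X₀ : ℕ, ∀ X : ℕ, X₀ ≤ X →
      (({n : ℕ | 2 ≤ n ∧ n ≤ X ∧ ¬ ∀ k : ℕ, 1 ≤ k → 24 ∣ f^[k] n + 1}.ncard : ℕ) : ℝ) ≤ δ * X := by
  classical
  intro δ hδ
  obtain ⟨X₀, h⟩ := SGK.typical 24 (by norm_num) 1 one_pos δ hδ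
  refine ⟨X₀, fun X hX => le_trans ?_ (h X hX)⟩
  rw [← Set.ncard_coe_finset]
  apply Nat.cast_le.2
  apply Set.ncard_le_ncard _ (Finset.finite_toSet _)
  rintro n ⟨hn2, hnX, hn⟩
  simp only [Finset.coe_filter, Finset.mem_Icc, Set.mem_ofPred_eq]
  refine ⟨⟨hn2, hnX⟩, ?_⟩
  rintro ⟨_, h1, _, _⟩
  apply hn
  intro k hk
  induction k, hk using Nat.le_induction with
  | base => exact h1
  | succ k _ ih =>
    rw [Function.iterate_succ_apply']
    exact step24 _ ih

end Pool.Agent.Results.MP_43e291_nt.WholeOrbit
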